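import Pool.Agent.H33.AM.Basic

/-!
# Project AUB2: definitions for one and a half degrees of freedom
-/

set_option autoImplicit false

open MeasureTheory
open scoped RealInnerProductSpace

namespace Pool.Agent.H33.AN

/-- Hypotheses on a potential `W(x, t)`, 1-periodic in `x` and `Tp`-periodic in `t`, with the partial
derivatives `W₁`, `W₂`. -/
structure HW (Tp : ℝ) (W W₁ W₂ : ℝ → ℝ → ℝ) (B : ℝ) : Prop where
  nonneg : 0 ≤ B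
  der : ∀ x t, HasFDerivAt (fun z : ℝ × ℝ => W z.1 z.2)
    (W₁ x t • ContinuousLinearMap.fst ℝ ℝ ℝ + W₂ x t • ContinuousLinearMap.snd ℝ ℝ ℝ) (x, t)
  cont₂ : Continuous fun z : ℝ × ℝ => W₂ z.1 z.2
  per₁ : ∀ x t, W (x + 1) t = W x t
  per₂ : ∀ x t, W x (t + Tp) = W x t
  bd : ∀ x t, |W x t| ≤ B
  bd₁ : ∀ x t, |W₁ x t| ≤ B
  bd₂ : ∀ x t, |W₂ x t| ≤ B
  lip : ∀ x t x' t', |W₁ x t - W₁ x' t'| ≤ B * (|x - x'| + |t - t'|)

/-- `x` is a curve on `[a, b]` with the velocity `u`. -/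
structure Cur (a b : ℝ) (x u : ℝ → ℝ) : Prop where
  le : a ≤ b
  cont : ContinuousOn x (Set.Icc a b)
  der : ∃ s : Set ℝ, s.Countable ∧ ∀ t ∈ Set.Ioo a b \ s, HasDerivAt x (u t) t
  meas : Measurable u
  bd : ∃ R : ℝ, ∀ t, |u t| ≤ R

/-- The action with respect to `u² / 2 - W(x, t)`. -/
noncomputable def A1 (W : ℝ → ℝ → ℝ) (a b : ℝ) (x u : ℝ → ℝ) : ℝ :=
  ∫ t in a..b, (u t ^ 2 / 2 - W (x t) t)

/-- Solutions of `x'' = - W₁(x, t)`. -/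
structure Ext (W₁ : ℝ → ℝ → ℝ) (γ v : ℝ → ℝ) : Prop where
  der : ∀ t, HasDerivAt γ (v t) t
  el : ∀ t, HasDerivAt v (-W₁ (γ t) t) t

/-- The minimal action of the curves from `(x, s)` to `(y, t)`. -/
noncomputable def Dm (W : ℝ → ℝ → ℝ) (s t x y : ℝ) : ℝ :=
  sInf {r | ∃ ξ u : ℝ → ℝ, Cur s t ξ u ∧ ξ s = x ∧ ξ t = y ∧ A1 W s t ξ u = r}

/-- The minimal action of the closed curves of type `(p, Q)`. -/
noncomputable def EpQ (W : ℝ → ℝ → ℝ) (p : ℤ) (Q : ℕ) : ℝ :=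
  sInf (Set.range fun x : ℝ => Dm W 0 Q x (x + p))

/-- Minimising closed orbits of type `(p, Q)`. -/
structure Leaf (W W₁ : ℝ → ℝ → ℝ) (p : ℤ) (Q : ℕ) (γ v : ℝ → ℝ) : Prop where
  ext : Ext W₁ γ v
  per : ∀ t, γ (t + Q) = γ t + p
  vper : ∀ t, v (t + Q) = v t
  act : ∀ s, A1 W s (s + Q) γ v = EpQ W p Q

/-- The potential `W` is foliated: every point lies on minimising closed orbits of all the types. -/
def Foliated (W : ℝ → ℝ → ℝ) : Prop :=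
  ∀ (p : ℤ) (Q : ℕ), 0 < Q → ∀ s x, Dm W s (s + Q) x (x + p) = EpQ W p Q

/-- The invariant graph `v(x, t)` of the minimising closed orbits of type `(p, Q)`, with the solution
`c x + u(x, t)` of the Hamilton-Jacobi equation, at the level `α`. -/
structure Kam (W W₁ : ℝ → ℝ → ℝ) (p : ℤ) (Q : ℕ) (c α : ℝ) (u v : ℝ → ℝ → ℝ) (Λ : ℝ) : Prop where
  fder : ∀ x t, HasFDerivAt (fun z : ℝ × ℝ => u z.1 z.2)
    ((v x t - c) • ContinuousLinearMap.fst ℝ ℝ ℝ +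
      (α - v x t ^ 2 / 2 - W x t) • ContinuousLinearMap.snd ℝ ℝ ℝ) (x, t)
  per₁ : ∀ x t, u (x + 1) t = u x t
  per₂ : ∀ x t, u x (t + 1) = u x t
  vper₁ : ∀ x t, v (x + 1) t = v x t
  vper₂ : ∀ x t, v x (t + 1) = v x t
  vbd : ∀ x t, |v x t| ≤ Λ
  lip : ∀ x t x' t', |v x t - v x' t'| ≤ Λ * (|x - x'| + |t - t'|)
  leaf : ∀ x t, ∃ γ ν : ℝ → ℝ, Leaf W W₁ p Q γ ν ∧ γ t = x ∧ ∀ s, ν s = v (γ s) s
  alpha : α = c * ((p : ℝ) / Q) - EpQ W p Q / Q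
  crit : ∀ (p' : ℤ) (Q' : ℕ), 0 < Q' →
    EpQ W p Q / Q + c * ((p' : ℝ) / Q' - (p : ℝ) / Q) ≤ EpQ W p' Q' / Q'

end Pool.Agent.H33.AN
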