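import Pool.Agent.H33.AN.Pot
import Pool.Agent.H33.AM.Defs

/-!
# Project AUB2: solutions of the Euler-Lagrange equation, discrete action
-/

set_option autoImplicit false

open MeasureTheory
open scoped RealInnerProductSpace

namespace Pool.Agent.H33.AN

open Pool.Agent.H33.AM

variable {n : ℕ}

/-- Solutions of the Euler-Lagrange equation of `⟪G v, v⟫ / 2 - V(x, t)`. -/
structure Sol2 (G : EuclideanSpace ℝ (Fin n) →L[ℝ] EuclideanSpace ℝ (Fin n))
    (F : EuclideanSpace ℝ (Fin n) → ℝ → EuclideanSpace ℝ (Fin n))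
    (γ v : ℝ → EuclideanSpace ℝ (Fin n)) : Prop where
  cont : Continuous v
  der : ∀ t, HasDerivAt γ (v t) t
  el : ∀ t, HasDerivAt (fun s => G (v s)) (-F (γ t) t) t

/-- The vector field of the Euler-Lagrange equation in the coordinates `(x, v, t)`, `G' = G⁻¹`. -/
noncomputable def field2 (G' : EuclideanSpace ℝ (Fin n) →L[ℝ] EuclideanSpace ℝ (Fin n))
    (F : EuclideanSpace ℝ (Fin n) → ℝ → EuclideanSpace ℝ (Fin n))
    (z : EuclideanSpace ℝ (Fin n) × EuclideanSpace ℝ (Fin n) × ℝ) :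
    EuclideanSpace ℝ (Fin n) × EuclideanSpace ℝ (Fin n) × ℝ :=
  (z.2.1, -G' (F z.1 z.2.2), 1)

/-- The discrete action, `v_i = (x_{i + 1} - x_i) / τ`, `t_i = i τ`. -/
noncomputable def Sd2 (G : EuclideanSpace ℝ (Fin n) →L[ℝ] EuclideanSpace ℝ (Fin n))
    (V : EuclideanSpace ℝ (Fin n) → ℝ → ℝ) (τ : ℝ) (N : ℕ) (x : ℤ → EuclideanSpace ℝ (Fin n)) : ℝ :=
  ∑ i ∈ Finset.range N, τ * lag2 G V (x i) ((1 / τ) • (x (i + 1) - x i)) (i * τ)

/-- Minimisers of the discrete action, `N` steps of length `T / N`, closed modulo `k`. -/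
def IsDM2 (G : EuclideanSpace ℝ (Fin n) →L[ℝ] EuclideanSpace ℝ (Fin n))
    (V : EuclideanSpace ℝ (Fin n) → ℝ → ℝ) (T : ℝ) (N : ℕ) (k : Fin n → ℤ)
    (x : ℤ → EuclideanSpace ℝ (Fin n)) : Prop :=
  (∀ i, x (i + N) = x i + zv k) ∧
    ∀ y : ℤ → EuclideanSpace ℝ (Fin n), (∀ i, y (i + N) = y i + zv k) →
      Sd2 G V (T / N) N x ≤ Sd2 G V (T / N) N y

end Pool.Agent.H33.AN
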