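import Pool.Agent.H33.AN.Trap

/-!
# Project AUB2: potentials and kinetic energies
-/

set_option autoImplicit false

open MeasureTheory
open scoped RealInnerProductSpace

namespace Pool.Agent.H33.AN

open Pool.Agent.H33.AM

variable {n : ℕ}

/-- Hypotheses on a potential `V(x, t)`, `ℤⁿ`-periodic in `x` and `Tp`-periodic in `t`, with the
gradient `F` in `x` and the derivative `Vt` in `t`. -/
structure HV2 (Tp : ℝ) (V : EuclideanSpace ℝ (Fin n) → ℝ → ℝ)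
    (F : EuclideanSpace ℝ (Fin n) → ℝ → EuclideanSpace ℝ (Fin n))
    (Vt : EuclideanSpace ℝ (Fin n) → ℝ → ℝ) (B : ℝ) : Prop where
  nonneg : 0 ≤ B
  der : ∀ x t, HasFDerivAt (fun z : EuclideanSpace ℝ (Fin n) × ℝ => V z.1 z.2)
    ((innerSL ℝ (F x t)).comp (ContinuousLinearMap.fst ℝ (EuclideanSpace ℝ (Fin n)) ℝ) +
      Vt x t • ContinuousLinearMap.snd ℝ (EuclideanSpace ℝ (Fin n)) ℝ) (x, t)
  contt : Continuous fun z : EuclideanSpace ℝ (Fin n) × ℝ => Vt z.1 z.2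
  per : ∀ x t (k : Fin n → ℤ), V (x + zv k) t = V x t
  pert : ∀ x t, V x (t + Tp) = V x t
  bd : ∀ x t, |V x t| ≤ B
  bdF : ∀ x t, ‖F x t‖ ≤ B
  bdt : ∀ x t, |Vt x t| ≤ B
  lip : ∀ x t x' t', ‖F x t - F x' t'‖ ≤ B * (‖x - x'‖ + |t - t'|)

/-- Hypotheses on the matrix `G` of the kinetic energy. -/
structure HG (G : EuclideanSpace ℝ (Fin n) →L[ℝ] EuclideanSpace ℝ (Fin n)) (κ₁ κ₂ : ℝ) :
    Prop where
  pos : 0 < κ₁
  pos₂ : 0 < κ₂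
  symm : ∀ v w, ⟪G v, w⟫ = ⟪v, G w⟫
  lo : ∀ v, κ₁ * ‖v‖ ^ 2 ≤ ⟪G v, v⟫
  hi : ∀ v, ⟪G v, v⟫ ≤ κ₂ * ‖v‖ ^ 2

/-- The Lagrangian `L(x, v, t) = ⟪G v, v⟫ / 2 - V(x, t)`. -/
noncomputable def lag2 (G : EuclideanSpace ℝ (Fin n) →L[ℝ] EuclideanSpace ℝ (Fin n))
    (V : EuclideanSpace ℝ (Fin n) → ℝ → ℝ) (x v : EuclideanSpace ℝ (Fin n)) (t : ℝ) : ℝ :=
  ⟪G v, v⟫ / 2 - V x t

/-- The Lagrangian in the frame moving with the velocity `r m`, minus a null Lagrangian. -/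
noncomputable def mlag (G : EuclideanSpace ℝ (Fin n) →L[ℝ] EuclideanSpace ℝ (Fin n))
    (V : EuclideanSpace ℝ (Fin n) → ℝ → ℝ) (q : EuclideanSpace ℝ (Fin n)) (m : Fin n → ℤ)
    (r E : ℝ) (x v : EuclideanSpace ℝ (Fin n)) (t : ℝ) : ℝ :=
  ⟪G (v - q), v - q⟫ / 2 - V (x + (r * t) • zv m) t - E

end Pool.Agent.H33.AN
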