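import Pool.Agent.H33.AN.Basic

/-!
# Project AUB2: definitions for the trapping argument (time-periodic)
-/

set_option autoImplicit false

open MeasureTheory
open scoped RealInnerProductSpace

namespace Pool.Agent.H33.AN

open Pool.Agent.H33.AM

/-- A barrier `Bc` for the closed orbits of the potential `w`, 1-periodic in `x` and `Q`-periodic in
`t`: `E₁` is the minimal action of the closed curves over one period `Q`, and closed curves which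
meet an integer translate of `Bc` cost at least `μ` more. -/
structure Bar (w : ℝ → ℝ → ℝ) (Q : ℕ) (E₁ μ : ℝ) (Bc : ℝ → ℝ) : Prop where
  Q_pos : 0 < Q
  μ_pos : 0 < μ
  cont : Continuous Bc
  per : ∀ t, Bc (t + Q) = Bc t
  crit : ∀ (j : ℕ) (s : ℝ) (ξ u : ℝ → ℝ), 0 < j → Cur s (s + j * Q) ξ u → ξ (s + j * Q) = ξ s →
    j * E₁ ≤ A1 w s (s + j * Q) ξ u
  att : ∃ ξ u : ℝ → ℝ, (∀ s t, s ≤ t → Cur s t ξ u) ∧ (∀ t, ξ (t + Q) = ξ t) ∧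
    (∀ t, u (t + Q) = u t) ∧ A1 w 0 Q ξ u = E₁
  mark : ∀ (j : ℕ) (s : ℝ) (ξ u : ℝ → ℝ), 0 < j → Cur s (s + j * Q) ξ u → ξ (s + j * Q) = ξ s →
    (∃ t ∈ Set.Icc s (s + j * Q), ∃ k : ℤ, ξ t = Bc t + k) → j * E₁ + μ ≤ A1 w s (s + j * Q) ξ u

/-- The normalised action on the line. -/
noncomputable def c1 (w : ℝ → ℝ → ℝ) (Q : ℕ) (E₁ s t : ℝ) (ξ u : ℝ → ℝ) : ℝ :=
  A1 w s t ξ u - E₁ / Q * (t - s)

/-- A level: a closed curve `a` with velocity `ua`, with the periodic gauge function `ψ` and the excess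
`ωa ≤ ω` of the action over one period. -/
structure Lev (w : ℝ → ℝ → ℝ) (Q : ℕ) (E₁ ω R : ℝ) (a ua ψ : ℝ → ℝ) : Prop where
  cur : ∀ s t, s ≤ t → Cur s t a ua
  contA : Continuous a
  per : ∀ t, a (t + Q) = a t
  bd : ∀ t, |a t| ≤ R
  bdu : ∀ t, |ua t| ≤ R
  ψper : ∀ t, ψ (t + Q) = ψ t
  ψbd : ∀ t, |ψ t| ≤ R
  cost : ∃ ωa : ℝ, 0 ≤ ωa ∧ ωa ≤ ω ∧
    ∀ s t, s ≤ t → c1 w Q E₁ s t a ua = ψ t - ψ s + ωa / Q * (t - s)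

/-- Lagrangians `ℓ(x, v, t)`. -/
structure HL2 {n : ℕ} (Q : ℕ) (l : EuclideanSpace ℝ (Fin n) → EuclideanSpace ℝ (Fin n) → ℝ → ℝ) :
    Prop where
  cont : Continuous fun p : EuclideanSpace ℝ (Fin n) × EuclideanSpace ℝ (Fin n) × ℝ =>
    l p.1 p.2.1 p.2.2
  per : ∀ x v t (k : Fin n → ℤ), l (x + zv k) v t = l x v t
  pert : ∀ x v t, l x v (t + Q) = l x v t

/-- There is a curve on `[a, b]` from `x` to `y` with the action `r` with respect to `ℓ + e`. -/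
def Conn2 {n : ℕ} (l : EuclideanSpace ℝ (Fin n) → EuclideanSpace ℝ (Fin n) → ℝ → ℝ) (e a b : ℝ)
    (x y : EuclideanSpace ℝ (Fin n)) (r : ℝ) : Prop :=
  ∃ ξ u : ℝ → EuclideanSpace ℝ (Fin n), Adm a b ξ u ∧ ξ a = x ∧ ξ b = y ∧
    ∫ t in a..b, (l (ξ t) (u t) t + e) = r

/-- Curves which are closed modulo `k` with `k₀ · k = 0`, over a multiple of the period `Q`, have
nonnegative action with respect to `ℓ + e`. -/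
def Crit2 {n : ℕ} (l : EuclideanSpace ℝ (Fin n) → EuclideanSpace ℝ (Fin n) → ℝ → ℝ)
    (k₀ : Fin n → ℤ) (Q : ℕ) (e : ℝ) : Prop :=
  ∀ (j : ℕ) (s : ℝ) (x : EuclideanSpace ℝ (Fin n)) (k : Fin n → ℤ) (r : ℝ), dot k₀ k = 0 →
    Conn2 l e s (s + j * Q) x (x + zv k) r → 0 ≤ r

/-- The trapping data. -/
structure Trap2 {n : ℕ} (l : EuclideanSpace ℝ (Fin n) → EuclideanSpace ℝ (Fin n) → ℝ → ℝ)
    (k₀ m P : Fin n → ℤ) (s : ℝ) (e₀ : EuclideanSpace ℝ (Fin n)) (Q : ℕ) (w : ℝ → ℝ → ℝ)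
    (E₁ M κ δ : ℝ) : Prop where
  hl : HL2 Q l
  km : dot k₀ m = 1
  kP : dot k₀ P = 0
  s_pos : 0 < s
  ke : ⟪zv k₀, e₀⟫ = 1
  M_pos : 0 < M
  κ_pos : 0 < κ
  δ_nonneg : 0 ≤ δ
  δ_le : δ ≤ 1 / 2
  lo : ∃ δ' : ℝ, 0 ≤ δ' ∧ δ' ≤ δ ∧
    ∀ (a b : ℝ) (x u : ℝ → EuclideanSpace ℝ (Fin n)), Adm a b x u →
      M * (1 - δ') * c1 w Q E₁ a b (fun t => ⟪zv k₀, x t⟫) (fun t => ⟪zv k₀, u t⟫) - δ * (b - a) - δ ≤
        ∫ t in a..b, l (x t) (u t) t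
  hi : ∀ (a b : ℝ) (x u : ℝ → EuclideanSpace ℝ (Fin n)), Adm a b x u →
    (∫ t in a..b, l (x t) (u t) t) ≤
      M * c1 w Q E₁ a b (fun t => ⟪zv k₀, x t⟫) (fun t => ⟪zv k₀, u t⟫) +
        κ / 2 * (∫ t in a..b, ‖u t - s • zv P - ⟪zv k₀, u t⟫ • e₀‖ ^ 2) + δ * (b - a) + δ +
        δ * (∫ t in a..b, ‖u t - s • zv P‖)

/-- Points of the moving level `lvl` can be connected at a cost at most `κ`, up to the gauge `ψ`. -/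
def Closes2 {n : ℕ} (l : EuclideanSpace ℝ (Fin n) → EuclideanSpace ℝ (Fin n) → ℝ → ℝ)
    (k₀ : Fin n → ℤ) (Q : ℕ) (e κ : ℝ) (lvl ψ : ℝ → ℝ) : Prop :=
  ∀ (t t' : ℝ) (x y : EuclideanSpace ℝ (Fin n)), ⟪zv k₀, x⟫ = lvl t → ⟪zv k₀, y⟫ = lvl t' →
    ∃ (b : ℝ) (i : ℤ) (k : Fin n → ℤ) (r : ℝ), b = t' + i * Q ∧ t ≤ b ∧ dot k₀ k = 0 ∧
      Conn2 l e t b x (y + zv k) r ∧ r ≤ κ + ψ t' - ψ t

/-- Rough connections. -/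
def Rough2 {n : ℕ} (l : EuclideanSpace ℝ (Fin n) → EuclideanSpace ℝ (Fin n) → ℝ → ℝ)
    (k₀ : Fin n → ℤ) (Q : ℕ) (e C₁ : ℝ) : Prop :=
  ∀ (t t' : ℝ) (x y : EuclideanSpace ℝ (Fin n)), |⟪zv k₀, y⟫ - ⟪zv k₀, x⟫| ≤ 1 →
    ∃ (b : ℝ) (i : ℤ) (k : Fin n → ℤ) (r : ℝ), b = t' + i * Q ∧ t ≤ b ∧ dot k₀ k = 0 ∧
      Conn2 l e t b x (y + zv k) r ∧ r ≤ C₁

/-- The conclusion of the trapping lemma. -/
def Trapped2 {n : ℕ} (l : EuclideanSpace ℝ (Fin n) → EuclideanSpace ℝ (Fin n) → ℝ → ℝ)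
    (k₀ : Fin n → ℤ) (Q : ℕ) : Prop :=
  ∃ e fu fd C : ℝ, -fd < fu ∧ Crit2 l k₀ Q e ∧ (∀ e' < e, ¬ Crit2 l k₀ Q e') ∧
    ∀ η ∈ Set.Icc (-fd) fu, ∀ (a b : ℝ) (x y : EuclideanSpace ℝ (Fin n)) (r : ℝ),
      Conn2 l e a b x y r → η * (⟪zv k₀, y⟫ - ⟪zv k₀, x⟫) - C ≤ r

/-- A time-periodic Lagrangian has a flat of the action functional. -/
def Flat2 {n : ℕ} (L : EuclideanSpace ℝ (Fin n) → EuclideanSpace ℝ (Fin n) → ℝ → ℝ) : Prop :=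
  ∃ (k₀ : Fin n → ℤ) (c₀ : EuclideanSpace ℝ (Fin n)) (E₀ η₁ η₂ C : ℝ) (p : ℤ) (Q : ℕ),
    k₀ ≠ 0 ∧ η₁ < η₂ ∧ 0 < Q ∧
    (∀ η ∈ Set.Icc η₁ η₂, ∀ (a b : ℝ) (x u : ℝ → EuclideanSpace ℝ (Fin n)), Adm a b x u →
      -C ≤ ∫ t in a..b, (L (x t) (u t) t - ⟪c₀ + η • zv k₀, u t⟫ + (E₀ + η * ((p : ℝ) / Q)))) ∧
    ∀ E' < E₀, ∃ (j : ℕ) (s : ℝ) (x u : ℝ → EuclideanSpace ℝ (Fin n)) (k : Fin n → ℤ), 0 < j ∧
      Adm s (s + j * Q) x u ∧ x (s + j * Q) = x s + zv k ∧ dot k₀ k = j * p ∧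
      (∫ t in s..(s + j * Q), (L (x t) (u t) t - ⟪c₀, u t⟫ + E')) < 0

end Pool.Agent.H33.AN
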